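import Pool.Agent.H.MP_5ec4bc_an.C

namespace Pool.Agent.Results.MP_5ec4bc_an.No
open Filter

/-- `|A ∩ [1,N]| / N`. -/
noncomputable def ratio (A : Set ℕ) (N : ℕ) : ℝ := ((A ∩ Set.Icc 1 N).ncard : ℝ) / N

/-- Positive lower density. -/
def LowerPos (A : Set ℕ) : Prop := 0 < liminf (ratio A) atTop

/-- Positive upper density. -/
def UpperPos (A : Set ℕ) : Prop := 0 < limsup (ratio A) atTop

/-- Hereditary `F`-hypercyclicity. -/
def Hered {X : Type} [TopologicalSpace X] (F : Set ℕ → Prop) (T : X → X) : Prop :=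
  ∀ (I : Type) [Countable I] (V : I → Set X) (A : I → Set ℕ),
    (∀ i, IsOpen (V i) ∧ (V i).Nonempty) → (∀ i, F (A i)) →
      ∃ x : X, ∀ i, F ({n | T^[n] x ∈ V i} ∩ A i)

theorem result : ∃ (X : Type) (_ : AddCommGroup X) (_ : Module ℝ X) (_ : TopologicalSpace X),
    IsTopologicalAddGroup X ∧ ContinuousSMul ℝ X ∧ PolishSpace X ∧ ¬ FiniteDimensional ℝ X ∧
      ∃ T : X →L[ℝ] X, Hered LowerPos T ∧ ¬ Hered UpperPos T := by
  refine ⟨H.MP_5ec4bc_an.X, inferInstance, inferInstance, inferInstance, inferInstance,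
    inferInstance, inferInstance, H.MP_5ec4bc_an.infdim, H.MP_5ec4bc_an.T,
    fun I _ V A => H.MP_5ec4bc_an.main1 I V A, fun h => ?_⟩
  obtain ⟨V, A, h1, h2, h3⟩ := H.MP_5ec4bc_an.main2
  obtain ⟨x, hx⟩ := h Unit (fun _ => V) (fun _ => A) (fun _ => h1) fun _ => h2
  exact (hx ()).ne' (h3 x)

end Pool.Agent.Results.MP_5ec4bc_an.No
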